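import Pool.Agent.V7H60.GC.Aff
import Pool.Agent.V7H60.GH.Poly4
import Pool.Agent.V7H60.GH.Box

/-!
# Dynamical Mordell-Lang for almost all tuples of polynomials

A criterion by field automorphisms of `ℂ`, and its consequence: the full Dynamical Mordell-Lang property
for all maps of affine space built from `f_1 + λ_1(c), ..., f_k + λ_k(c)`, where `f_1, ..., f_k` are
arbitrary polynomials over `ℚ` of degrees at least two, `λ_1, ..., λ_k` arbitrary nonzero linear forms and
the integral vector `c` is outside of a thin set; and for all tuples of polynomials of given degrees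
outside of a thin set.
-/

set_option autoImplicit false

namespace Pool.Agent.Results.MP_295d38_ag.AlmostAllPolynomialsH60

open Polynomial

/-- The composition `f_(w_1) ∘ f_(w_2) ∘ ... ∘ f_(w_m)`. -/
noncomputable def comp {k : ℕ} (f : Fin k → ℚ[X]) : List (Fin k) → ℂ → ℂ
  | [] => fun y => y
  | j :: w => fun y => aeval (comp f w y) (f j)

/-- The self-map `x ↦ (f_(τ i) (x_(σ i)))` of affine space. -/
noncomputable def pmap {k N : ℕ} (f : Fin k → ℚ[X]) (τ : Fin N → Fin k) (σ : Fin N → Fin N)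
    (x : Fin N → ℂ) : Fin N → ℂ :=
  fun i => aeval (x (σ i)) (f (τ i))

/-- The Dynamical Mordell-Lang property of a self-map of affine space: for every point and every
closed `V` (the common zeros of a set `S` of polynomials) the return set is a finite union of
arithmetic progressions. -/
def DML {N : ℕ} (F : (Fin N → ℂ) → (Fin N → ℂ)) : Prop :=
  ∀ (α : Fin N → ℂ) (S : Set (MvPolynomial (Fin N) ℂ)), ∃ T : Finset (ℕ × ℕ),
    {n : ℕ | ∀ P ∈ S, MvPolynomial.eval (F^[n] α) P = 0} =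
      {n : ℕ | ∃ q ∈ T, ∃ m : ℕ, n = q.1 * m + q.2}

/-- All maps `x ↦ (f_(τ i) (x_(σ i)))` of affine spaces built from the tuple have the full Dynamical
Mordell-Lang property. -/
def Conclusion {k : ℕ} (f : Fin k → ℚ[X]) : Prop :=
  ∀ (N : ℕ) (τ : Fin N → Fin k) (σ : Fin N → Fin N), DML (pmap f τ σ)

theorem acomp_comp {k N : ℕ} (f : Fin k → ℚ[X]) (τ : Fin N → Fin k) (w : List (Fin N)) (y : ℂ) :
    V7H60.GC.acomp (fun i => f (τ i)) w y = comp f (w.map τ) y := by
  induction w with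
  | nil => rfl
  | cons i w ih =>
    change aeval (V7H60.GC.acomp (fun i => f (τ i)) w y) (f (τ i)) =
      aeval (comp f (w.map τ) y) (f (τ i))
    rw [ih]

theorem main {k : ℕ} (f : Fin k → ℚ[X]) (g : ℂ ≃+* ℂ) (m : ℕ)
    (h : ∀ j (x : ℂ), aeval x (derivative (f j)) = 0 → ∃ e, 1 ≤ e ∧ (⇑g)^[e] x = x ∧
      ∀ y : ℂ, (⇑g)^[e] y = y → ∀ w : List (Fin k), w.length = m → comp f w y ≠ x) :
    Conclusion f := by
  intro N τ σ α S
  refine V7H60.GC.aff_all (g := g) (m := m) (fun i => f (τ i)) (fun i x hx => ?_) α σ S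
  obtain ⟨e, he, hf, hno⟩ := h (τ i) x hx
  refine ⟨e, he, hf, fun y hy w hw => ?_⟩
  rw [acomp_comp]
  exact hno y hy (w.map τ) (by rw [List.length_map, hw])

/-- the case `m = 1`, `e = 1` -/
theorem main_one {k : ℕ} (f : Fin k → ℚ[X]) (g : ℂ ≃+* ℂ)
    (h : ∀ j (x : ℂ), aeval x (derivative (f j)) = 0 → g x = x ∧
      ∀ y : ℂ, g y = y → ∀ i, aeval y (f i) ≠ x) :
    Conclusion f := by
  refine main f g 1 fun j x hx => ?_
  obtain ⟨h1, h2⟩ := h j x hx
  refine ⟨1, le_rfl, h1, fun y hy w hw => ?_⟩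
  obtain ⟨i, rfl⟩ := List.length_eq_one_iff.1 hw
  exact h2 y hy i

theorem real_case {k : ℕ} (f : Fin k → ℚ[X]) (m : ℕ)
    (hr : ∀ j (x : ℂ), aeval x (derivative (f j)) = 0 → x.im = 0)
    (h : ∀ j (x y : ℝ), aeval x (derivative (f j)) = 0 → ∀ w : List (Fin k), w.length = m →
      comp f w y ≠ x) : Conclusion f := by
  refine main f (starRingAut (R := ℂ)) m (fun j x hx => ?_)
  have h1 : ((x.re : ℝ) : ℂ) = x := Complex.ext rfl (by rw [Complex.ofReal_im, hr j x hx])
  refine ⟨1, le_rfl, ?_, fun y hy w hw => ?_⟩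
  · change starRingEnd ℂ x = x
    rw [← h1, Complex.conj_ofReal]
  · have hy' : starRingEnd ℂ y = y := hy
    obtain ⟨r, hr'⟩ := Complex.conj_eq_iff_real.1 hy'
    have h2 : aeval x.re (derivative (f j)) = (0 : ℝ) := by
      have h3 : ((aeval x.re (derivative (f j)) : ℝ) : ℂ) = 0 := by
        rw [← h1] at hx
        rw [← hx]
        exact (Polynomial.aeval_algebraMap_apply ℂ x.re (derivative (f j))).symm
      exact_mod_cast h3
    rw [hr', ← h1]
    exact h j x.re r h2 w hw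

/-- translation by constants -/
theorem translates {k : ℕ} (f : Fin k → ℚ[X])
    (hr : ∀ j (x : ℂ), aeval x (derivative (f j)) = 0 → x.im = 0)
    (hb : ∀ j, ∃ b : ℝ, ∀ y : ℝ, b ≤ aeval y (f j)) :
    ∃ c₀ : ℚ, ∀ c : Fin k → ℚ, (∀ j, c₀ ≤ c j) → Conclusion (fun j => f j + C (c j)) := by
  classical
  choose b hb using hb
  have hd0 : ∀ j, derivative (f j) ≠ 0 := by
    intro j h0
    have h1 := hr j Complex.I (by rw [h0, map_zero])
    simp at h1
  have hroot : ∀ j, ∃ M : ℝ, ∀ x : ℝ, aeval x (derivative (f j)) = 0 → x ≤ M := by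
    intro j
    have h1 : {x : ℝ | ((derivative (f j)).map (algebraMap ℚ ℝ)).IsRoot x}.Finite :=
      Polynomial.finite_setOfPred_isRoot (Polynomial.map_ne_zero (hd0 j))
    obtain ⟨M, hM⟩ := h1.bddAbove
    refine ⟨M, fun x hx => hM ?_⟩
    change ((derivative (f j)).map (algebraMap ℚ ℝ)).eval x = 0
    rw [Polynomial.eval_map_algebraMap]
    exact hx
  choose M hM using hroot
  obtain ⟨c₀, hc₀⟩ := exists_rat_gt (∑ i, ∑ j, |M i - b j|)
  refine ⟨c₀, fun c hc => ?_⟩
  have hder : ∀ j, derivative (f j + C (c j)) = derivative (f j) := fun j => by simp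
  refine real_case _ 1 (fun j x hx => ?_) (fun j x y hx w hw hxy => ?_)
  · rw [hder] at hx
    exact hr j x hx
  · rw [hder] at hx
    obtain ⟨i, rfl⟩ := List.length_eq_one_iff.1 hw
    have h1 : ((aeval y (f i) + (c i : ℝ) : ℝ) : ℂ) = (x : ℂ) := by
      rw [← hxy]
      change _ = aeval (y : ℂ) (f i + C (c i))
      rw [map_add, aeval_C, Complex.ofReal_add]
      congr 1
      · exact (Polynomial.aeval_algebraMap_apply ℂ y (f i)).symm
    have h2 : aeval y (f i) + (c i : ℝ) = x := by exact_mod_cast h1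
    have h3 := hM j x hx
    have h4 := hb i y
    have h5 : (c₀ : ℝ) ≤ c i := by exact_mod_cast hc i
    have h6 : |M j - b i| ≤ ∑ i, ∑ j, |M i - b j| :=
      (Finset.single_le_sum (f := fun j' => |M j - b j'|) (fun _ _ => abs_nonneg _)
        (Finset.mem_univ i)).trans
      (Finset.single_le_sum (f := fun i' => ∑ j', |M i' - b j'|)
        (fun _ _ => Finset.sum_nonneg fun _ _ => abs_nonneg _) (Finset.mem_univ j))
    have h7 := le_abs_self (M j - b i)
    linarith

/-! ### Thin sets and densities -/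

section thin

open Filter Topology

/-- `E` is contained in a thin set: in the union of the zeros of a nonzero polynomial `z` over `ℤ` and
of the `c` for which one of finitely many monic irreducible polynomials over `ℤ[c]` of degrees at least
two has an integral root. -/
def Thin {ι : Type} (E : Set (ι → ℤ)) : Prop :=
  ∃ (W : Finset (Polynomial (MvPolynomial ι ℤ))) (z : MvPolynomial ι ℤ),
    (∀ p ∈ W, p.Monic ∧ 2 ≤ p.natDegree ∧ Irreducible p) ∧ z ≠ 0 ∧
    ∀ c ∈ E, MvPolynomial.eval c z = 0 ∨ ∃ p ∈ W, ∃ a : ℤ, (p.map (MvPolynomial.eval c)).eval a = 0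

/-- The proportion of `E` in the boxes `[-B, B]^ι` tends to zero. -/
def NullBoxes {ι : Type} [Fintype ι] (E : Set (ι → ℤ)) : Prop :=
  Tendsto (fun B : ℕ => (({c : ι → ℤ | (∀ i, |c i| ≤ B) ∧ c ∈ E}.ncard : ℕ) : ℝ) /
    (2 * B + 1) ^ Fintype.card ι) atTop (𝓝 0)

/-- The vectors `x n`, `n ∈ S N`, `N → ∞`, are equidistributed modulo all integers. -/
def Equidistributed {ι : Type} [Fintype ι] (S : ℕ → Finset ℕ) (x : ℕ → ι → ℤ) : Prop :=
  ∀ q : ℕ, 1 ≤ q → ∀ r : ι → ℤ,
    Tendsto (fun N : ℕ => ({n : ℕ | n ∈ S N ∧ ∀ i, x n i ≡ r i [ZMOD q]}.ncard : ℝ) / (S N).card)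
      atTop (𝓝 (1 / (q : ℝ) ^ Fintype.card ι))

/-- `E` has density zero along all sequences which are equidistributed modulo all integers. -/
def NullSeq {ι : Type} [Fintype ι] (E : Set (ι → ℤ)) : Prop :=
  ∀ (S : ℕ → Finset ℕ) (x : ℕ → ι → ℤ), Equidistributed S x → ∀ ε : ℝ, 0 < ε → ∃ N₀ : ℕ, ∀ N : ℕ,
    N₀ ≤ N → (({n : ℕ | n ∈ S N ∧ x n ∈ E}.ncard : ℕ) : ℝ) ≤ ε * (S N).card

/-- `E` is thin and has density zero. -/
def Small {ι : Type} [Fintype ι] (E : Set (ι → ℤ)) : Prop := Thin E ∧ NullBoxes E ∧ NullSeq E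

open Pool.Agent.N455.HT in
theorem small_of {ι : Type} [Fintype ι] [DecidableEq ι] [Nonempty ι] {E : Set (ι → ℤ)}
    {W : Finset (Polynomial (MvPolynomial ι ℤ))} {Z : Finset (MvPolynomial ι ℤ)}
    (hW : ∀ p ∈ W, p.Monic ∧ 2 ≤ p.natDegree ∧ Irreducible p) (hZ : ∀ z ∈ Z, z ≠ 0)
    (h : ∀ c : ι → ℤ, (∀ p ∈ W, ∀ a : ℤ, (p.map (Pool.Agent.N455.HT.ev c)).eval a ≠ 0) →
      (∀ z ∈ Z, Pool.Agent.N455.HT.ev c z ≠ 0) → c ∉ E) : Small E := by
  classical
  have hev : ∀ c : ι → ℤ, Pool.Agent.N455.HT.ev c = MvPolynomial.eval c := by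
    intro c
    have h1 := hom_eq_ev (MvPolynomial.eval c : MvPolynomial ι ℤ →+* ℤ)
    rw [h1]
    congr 1
    funext i
    rw [MvPolynomial.eval_X]
  have hseq : ∀ (S : ℕ → Finset ℕ) (x : ℕ → ι → ℤ), Equi S x →
      Pool.Agent.N666.TM.NullIn S {n | x n ∈ E} := by
    intro S x hS
    have hw := WS.of_equi hS
    have n1 : Pool.Agent.N666.TM.NullIn S (⋃ p ∈ W, {n | ∃ a : ℤ, IsRt p (x n) a}) :=
      NullIn.biUnion' W _ fun p hp => hit_irr hw (hW p hp).1 (hW p hp).2.1 (hW p hp).2.2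
    have n2 : Pool.Agent.N666.TM.NullIn S (⋃ z ∈ Z, {n | Pool.Agent.N455.HT.ev (x n) z = 0}) :=
      NullIn.biUnion' Z _ fun z hz => zero_null hw (hZ z hz)
    refine NullIn.mono' (NullIn.union' n1 n2) ?_
    intro n hn
    by_contra hcon
    rw [Set.mem_union, not_or] at hcon
    refine h (x n) ?_ ?_ hn
    · intro p hp a ha
      exact hcon.1 (Set.mem_biUnion hp ⟨a, ha⟩)
    · intro z hz hz0
      exact hcon.2 (Set.mem_biUnion hz hz0)
  refine ⟨⟨W, ∏ z ∈ Z, z, hW, Finset.prod_ne_zero_iff.2 hZ, ?_⟩, ?_, ?_⟩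
  · intro c hc
    by_contra hcon
    push Not at hcon
    refine h c ?_ ?_ hc
    · intro p hp a
      rw [hev]
      exact hcon.2 p hp a
    · intro z hz
      rw [hev]
      intro h0
      apply hcon.1
      rw [map_prod]
      exact Finset.prod_eq_zero hz h0
  · have h1 := V7H60.GH.box_null (ι := ι) (fun c => c ∉ E) (fun S x hS => by
      have h2 := hseq S x hS
      simpa only [not_not] using h2)
    simp only [not_not] at h1
    exact h1
  · intro S x hS
    exact hseq S x hS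

end thin

/-- The polynomial `f_j + λ_j(c)`, where `λ_j(c) = ∑ lam j i * c i`. -/
noncomputable def shift {k n : ℕ} (f : Fin k → ℚ[X]) (lam : Fin k → Fin n → ℚ) (c : Fin n → ℤ)
    (j : Fin k) : ℚ[X] :=
  f j + C (∑ i, lam j i * (c i : ℚ))

/-- The polynomial `∑ c_{j,e} x^e` of degree at most `d j`. -/
noncomputable def poly {k : ℕ} {d : Fin k → ℕ} (c : (Σ j : Fin k, Fin (d j + 1)) → ℤ) (j : Fin k) :
    ℚ[X] :=
  ∑ e : Fin (d j + 1), C ((c ⟨j, e⟩ : ℤ) : ℚ) * X ^ (e : ℕ)

/-- **Dynamical Mordell-Lang for almost all tuples of polynomials.**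
(1) Let `f_1, ..., f_k` be polynomials over `ℚ`, `g` a field automorphism of `ℂ` and `m ≥ 0`. Suppose
that every critical point `x ∈ ℂ` of every `f_j` is fixed by a power `g ^ e`, `e ≥ 1`, such that no
complex number fixed by `g ^ e` is mapped to `x` by a composition of `m` of the `f_j`. Then for all
`N`, `τ` and `σ` the self-map `x ↦ (f_(τ i) (x_(σ i)))` of affine space has the full Dynamical
Mordell-Lang property (all complex points, all closed subvarieties over `ℂ`).
(2) Let `f_1, ..., f_k` be ANY polynomials over `ℚ` of degrees at least two and `λ_1, ..., λ_k` nonzero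
linear forms over `ℚ` in `n` variables. The conclusion holds for `f_1 + λ_1(c), ..., f_k + λ_k(c)` for
all `c ∈ ℤ^n` outside of a thin set (which has density zero).
(3) The conclusion holds for all polynomials `f_1, ..., f_k` of given degrees `d_j ≥ 2` outside of a thin
set of integral coefficient vectors (which has density zero).
(4) Let all critical points of the `f_j` be real and the `f_j` bounded below on `ℝ`. Then there is
`c₀` such that the conclusion holds for `f_1 + c_1, ..., f_k + c_k` for all rational numbers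
`c_1, ..., c_k ≥ c₀`. -/
theorem result {k : ℕ} (hk : 0 < k) (f : Fin k → ℚ[X]) :
    (∀ (g : ℂ ≃+* ℂ) (m : ℕ),
      (∀ j (x : ℂ), aeval x (derivative (f j)) = 0 → ∃ e, 1 ≤ e ∧ (⇑g)^[e] x = x ∧
        ∀ y : ℂ, (⇑g)^[e] y = y → ∀ w : List (Fin k), w.length = m → comp f w y ≠ x) →
      Conclusion f) ∧
    ((∀ j, 2 ≤ (f j).natDegree) → ∀ (n : ℕ) (lam : Fin k → Fin n → ℚ), (∀ j, lam j ≠ 0) →
      Small {c : Fin n → ℤ | ¬ Conclusion (shift f lam c)}) ∧
    (∀ d : Fin k → ℕ, (∀ j, 2 ≤ d j) →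
      Small {c : (Σ j : Fin k, Fin (d j + 1)) → ℤ | ¬ Conclusion (poly c)}) ∧
    ((∀ j (x : ℂ), aeval x (derivative (f j)) = 0 → x.im = 0) →
      (∀ j, ∃ b : ℝ, ∀ y : ℝ, b ≤ aeval y (f j)) →
      ∃ c₀ : ℚ, ∀ c : Fin k → ℚ, (∀ j, c₀ ≤ c j) → Conclusion (fun j => f j + C (c j))) := by
  refine ⟨fun g m h => main f g m h, fun hf n lam hlam => ?_, fun d hd => ?_,
    fun hr hb => translates f hr hb⟩
  · have : Nonempty (Fin n) := by
      obtain ⟨i, -⟩ := Function.ne_iff.1 (hlam ⟨0, hk⟩)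
      exact ⟨i⟩
    obtain ⟨W, Z, hW, hZ, H⟩ := V7H60.GH.thin_lin f hf lam hlam
    refine small_of hW hZ fun c h1 h2 h3 => h3 ?_
    obtain ⟨g, hg⟩ := H c h1 h2
    refine main_one _ g fun j x hx => ?_
    obtain ⟨h4, h5⟩ := hg j x (by
      rw [← hx]
      unfold shift
      rw [derivative_add, derivative_C, add_zero])
    refine ⟨h4, fun y hy i => ?_⟩
    have h6 := h5 y hy i
    unfold shift
    rw [map_add, aeval_C]
    exact h6
  · have : Nonempty (Σ j : Fin k, Fin (d j + 1)) := ⟨⟨⟨0, hk⟩, 0⟩⟩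
    obtain ⟨W, Z, hW, hZ, H⟩ := V7H60.GH.thin_all d hd
    refine small_of hW hZ fun c h1 h2 h3 => h3 ?_
    obtain ⟨g, hg⟩ := H c h1 h2
    exact main_one _ g hg

end Pool.Agent.Results.MP_295d38_ag.AlmostAllPolynomialsH60
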