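import Pool.Agent.V7H60.GH.Twist
import Pool.Agent.V7H60.GH.Box

/-!
# Dynamical Mordell-Lang for almost all tuples of rational functions

A criterion by field automorphisms of `ℂ`, and its consequence: the full Dynamical Mordell-Lang property
for all split maps of `(ℙ^1)^N` built from `M_1 ∘ h_1, ..., M_k ∘ h_k`, where `h_1, ..., h_k` are arbitrary
rational functions over `ℚ` of degrees at least two and the Moebius transformations `M_1, ..., M_k` are
outside of a thin set; and for all tuples of rational functions of given degrees outside of a thin set.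
-/

set_option autoImplicit false

namespace Pool.Agent.Results.MP_295d38_ag.AlmostAllTuplesH60

open MvPolynomial

/-- Indices of the coefficients of `k` pairs of binary forms, the `j`-th pair of degree `d j`. -/
abbrev Idx (k : ℕ) (d : Fin k → ℕ) : Type := Σ j : Fin k, Fin 2 × Fin (d j + 1)

/-- The rational function `f_j` in homogeneous coordinates:
`(x : y) ↦ (∑ v_{j,0,e} x^e y^(d j - e) : ∑ v_{j,1,e} x^e y^(d j - e))`. -/
noncomputable def ev {k : ℕ} {d : Fin k → ℕ} (v : Idx k d → ℤ) (j : Fin k) (z : Fin 2 → ℂ) :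
    Fin 2 → ℂ :=
  fun a => ∑ e : Fin (d j + 1), (v ⟨j, (a, e)⟩ : ℂ) * (z 0 ^ (e : ℕ) * z 1 ^ (d j - (e : ℕ)))

/-- The derivative of the form with number `a` of `f_j` with respect to `x`. -/
noncomputable def dx {k : ℕ} {d : Fin k → ℕ} (v : Idx k d → ℤ) (j : Fin k) (a : Fin 2)
    (z : Fin 2 → ℂ) : ℂ :=
  ∑ e : Fin (d j + 1), (v ⟨j, (a, e)⟩ : ℂ) *
    (((e : ℕ) : ℂ) * z 0 ^ ((e : ℕ) - 1) * z 1 ^ (d j - (e : ℕ)))

/-- The derivative of the form with number `a` of `f_j` with respect to `y`. -/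
noncomputable def dy {k : ℕ} {d : Fin k → ℕ} (v : Idx k d → ℤ) (j : Fin k) (a : Fin 2)
    (z : Fin 2 → ℂ) : ℂ :=
  ∑ e : Fin (d j + 1), (v ⟨j, (a, e)⟩ : ℂ) *
    (z 0 ^ (e : ℕ) * (((d j - (e : ℕ) : ℕ) : ℂ) * z 1 ^ (d j - (e : ℕ) - 1)))

/-- `z` is a critical point of `f_j`: the Jacobian determinant of the two forms vanishes. -/
def Critical {k : ℕ} {d : Fin k → ℕ} (v : Idx k d → ℤ) (j : Fin k) (z : Fin 2 → ℂ) : Prop :=
  dx v j 0 z * dy v j 1 z = dy v j 0 z * dx v j 1 z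

/-- The composition `f_(w_1) ∘ f_(w_2) ∘ ... ∘ f_(w_m)`. -/
noncomputable def comp {k : ℕ} {d : Fin k → ℕ} (v : Idx k d → ℤ) :
    List (Fin k) → (Fin 2 → ℂ) → (Fin 2 → ℂ)
  | [] => fun z => z
  | j :: w => fun z => ev v j (comp v w z)

/-- The nonzero vectors `z`, `z'` are homogeneous coordinates of the same point of `ℙ^1`. -/
def Same (z z' : Fin 2 → ℂ) : Prop := z 0 * z' 1 = z 1 * z' 0

/-- The point of `ℙ^1` with homogeneous coordinates `z` is fixed by `g ^ e`. -/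
def Fixed (g : ℂ ≃+* ℂ) (e : ℕ) (z : Fin 2 → ℂ) : Prop :=
  ∃ l : ℂ, ∀ a, (⇑g)^[e] (z a) = l * z a

/-- The self-map `(P_i) ↦ (f_(τ i) (P_(σ i)))` of `(ℙ^1)^N` in homogeneous coordinates. -/
noncomputable def qmap {k N : ℕ} {d : Fin k → ℕ} (v : Idx k d → ℤ) (τ : Fin N → Fin k)
    (σ : Fin N → Fin N) (x : Fin N × Fin 2 → ℂ) : Fin N × Fin 2 → ℂ :=
  fun q => ev v (τ q.1) (fun a => x (σ q.1, a)) q.2

/-- A multihomogeneous polynomial. -/
def MultiHom {N : ℕ} (g : MvPolynomial (Fin N × Fin 2) ℂ) : Prop :=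
  ∃ e : Fin N → ℕ, ∀ (t : Fin N → ℂ) (x : Fin N × Fin 2 → ℂ),
    eval (fun q => t q.1 * x q) g = (∏ i, t i ^ e i) * eval x g

/-- The Dynamical Mordell-Lang property of a self-map of `(ℙ^1)^N` given in homogeneous coordinates:
for every point and every closed `V ⊆ (ℙ^1)^N` (the common zeros of a set `S` of multihomogeneous
polynomials) the return set is a finite union of arithmetic progressions. -/
def DML {N : ℕ} (F : (Fin N × Fin 2 → ℂ) → (Fin N × Fin 2 → ℂ)) : Prop :=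
  ∀ α : Fin N × Fin 2 → ℂ, (∀ i, ¬ (α (i, 0) = 0 ∧ α (i, 1) = 0)) →
    ∀ S : Set (MvPolynomial (Fin N × Fin 2) ℂ), (∀ g ∈ S, MultiHom g) →
      ∃ T : Finset (ℕ × ℕ), {k : ℕ | ∀ g ∈ S, eval (F^[k] α) g = 0} =
        {k : ℕ | ∃ q ∈ T, ∃ m : ℕ, k = q.1 * m + q.2}

/-- `F` maps points to points: no pair of homogeneous coordinates becomes `(0, 0)`. -/
def Regular {N : ℕ} (F : (Fin N × Fin 2 → ℂ) → (Fin N × Fin 2 → ℂ)) : Prop :=
  ∀ α : Fin N × Fin 2 → ℂ, (∀ i, ¬ (α (i, 0) = 0 ∧ α (i, 1) = 0)) →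
    ∀ i, ¬ (F α (i, 0) = 0 ∧ F α (i, 1) = 0)

open Pool.Agent.TH838.DS Pool.Agent.H936R2 in
theorem pt_ev {k : ℕ} {d : Fin k → ℕ} (v : Idx k d → ℤ) (j : Fin k) (z : Fin 2 → ℂ) :
    pt (bs fun e => ((v ⟨j, e⟩ : ℤ) : ℂ)) z = ev v j z := by
  funext a
  change eval z (bs (fun e => ((v ⟨j, e⟩ : ℤ) : ℂ)) a) = _
  rw [bs, eval_bf]
  rfl

theorem wv_comp {k : ℕ} {d : Fin k → ℕ} (v : Idx k d → ℤ) (w : List (Fin k)) (z : Fin 2 → ℂ) :
    V7H60.GC.wv (fun e => ((v e : ℤ) : ℂ)) w z = comp v w z := by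
  induction w with
  | nil => rfl
  | cons j w ih =>
    change Pool.Agent.H936R2.pt (Pool.Agent.TH838.DS.bs fun e => ((v ⟨j, e⟩ : ℤ) : ℂ))
      (V7H60.GC.wv (fun e => ((v e : ℤ) : ℂ)) w z) = ev v j (comp v w z)
    rw [ih, pt_ev]

open Pool.Agent.TH838.DS in
theorem J_crit {k : ℕ} {d : Fin k → ℕ} (v : Idx k d → ℤ) (j : Fin k) (z : Fin 2 → ℂ)
    (h : V7H60.GC.J (fun e => ((v e : ℤ) : ℂ)) j z = 0) : Critical v j z := by
  unfold V7H60.GC.J at h
  rw [V7H60.GC.jac_eq, eval_d0, eval_d0, eval_d1, eval_d1] at h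
  exact sub_eq_zero.1 h

theorem main {k : ℕ} {d : Fin k → ℕ} (hd : ∀ j, 1 ≤ d j) (v : Idx k d → ℤ)
    (hv : ∀ j (z : Fin 2 → ℂ), z ≠ 0 → ev v j z ≠ 0) (g : ℂ ≃+* ℂ) (m : ℕ) (hm : 1 ≤ m)
    (hc : ∀ j (x : Fin 2 → ℂ), x ≠ 0 → Critical v j x → ∃ e, 1 ≤ e ∧ Fixed g e x ∧
      ∀ y : Fin 2 → ℂ, y ≠ 0 → Fixed g e y → ∀ w : List (Fin k), w.length = m →
        ¬ Same (comp v w y) x)
    (N : ℕ) (τ : Fin N → Fin k) (σ : Fin N → Fin N) :
    Regular (qmap v τ σ) ∧ DML (qmap v τ σ) := by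
  constructor
  · intro α hα i hi
    apply hv (τ i) (fun a => α (σ i, a)) (fun h => hα (σ i) ⟨congrFun h 0, congrFun h 1⟩)
    funext a
    fin_cases a
    · exact hi.1
    · exact hi.2
  · intro α hα S hS
    have h1 := V7H60.GC.all_points_g (g := g) hm (N := N) (d := fun i => d (τ i))
      (fun i => hd (τ i)) (V7H60.GC.pull τ v)
      (fun i z hz => by
        have := pt_ev v (τ i) z
        intro h
        apply hv (τ i) z hz
        rw [← this]
        exact h)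
      (fun i z hz hJ => by
        obtain ⟨e, he, hf, hno⟩ := hc (τ i) z hz (J_crit v (τ i) z hJ)
        refine ⟨e, he, hf, fun y hy hyf w hw hS => ?_⟩
        apply hno y hy hyf (w.map τ) (by rw [List.length_map, hw])
        rw [← wv_comp, ← V7H60.GC.wv_pull]
        exact hS)
      σ α (fun _ => Subfield.mem_top _) hα S hS
    exact h1

/-! ### Thin sets and densities -/

section thin

open Filter Topology

/-- `E` is contained in a thin set: in the union of the zeros of a nonzero polynomial `z` over `ℤ` and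
of the `c` for which one of finitely many monic irreducible polynomials over `ℤ[c]` of degrees at least
two has an integral root. -/
def Thin {ι : Type} (E : Set (ι → ℤ)) : Prop :=
  ∃ (W : Finset (Polynomial (MvPolynomial ι ℤ))) (z : MvPolynomial ι ℤ),
    (∀ p ∈ W, p.Monic ∧ 2 ≤ p.natDegree ∧ Irreducible p) ∧ z ≠ 0 ∧
    ∀ c ∈ E, eval c z = 0 ∨ ∃ p ∈ W, ∃ a : ℤ, (p.map (eval c)).eval a = 0

/-- The proportion of `E` in the boxes `[-B, B]^ι` tends to zero. -/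
def NullBoxes {ι : Type} [Fintype ι] (E : Set (ι → ℤ)) : Prop :=
  Tendsto (fun B : ℕ => (({c : ι → ℤ | (∀ i, |c i| ≤ B) ∧ c ∈ E}.ncard : ℕ) : ℝ) /
    (2 * B + 1) ^ Fintype.card ι) atTop (𝓝 0)

/-- The vectors `x n`, `n ∈ S N`, `N → ∞`, are equidistributed modulo all integers. -/
def Equidistributed {ι : Type} [Fintype ι] (S : ℕ → Finset ℕ) (x : ℕ → ι → ℤ) : Prop :=
  ∀ q : ℕ, 1 ≤ q → ∀ r : ι → ℤ,
    Tendsto (fun N : ℕ => ({n : ℕ | n ∈ S N ∧ ∀ i, x n i ≡ r i [ZMOD q]}.ncard : ℝ) / (S N).card)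
      atTop (𝓝 (1 / (q : ℝ) ^ Fintype.card ι))

/-- `E` has density zero along all sequences which are equidistributed modulo all integers. -/
def NullSeq {ι : Type} [Fintype ι] (E : Set (ι → ℤ)) : Prop :=
  ∀ (S : ℕ → Finset ℕ) (x : ℕ → ι → ℤ), Equidistributed S x → ∀ ε : ℝ, 0 < ε → ∃ N₀ : ℕ, ∀ N : ℕ,
    N₀ ≤ N → (({n : ℕ | n ∈ S N ∧ x n ∈ E}.ncard : ℕ) : ℝ) ≤ ε * (S N).card

/-- `E` is thin and has density zero. -/
def Small {ι : Type} [Fintype ι] (E : Set (ι → ℤ)) : Prop := Thin E ∧ NullBoxes E ∧ NullSeq E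

open Pool.Agent.N455.HT in
theorem small_of {ι : Type} [Fintype ι] [DecidableEq ι] [Nonempty ι] {E : Set (ι → ℤ)}
    {W : Finset (Polynomial (MvPolynomial ι ℤ))} {Z : Finset (MvPolynomial ι ℤ)}
    (hW : ∀ p ∈ W, p.Monic ∧ 2 ≤ p.natDegree ∧ Irreducible p) (hZ : ∀ z ∈ Z, z ≠ 0)
    (h : ∀ c : ι → ℤ, (∀ p ∈ W, ∀ a : ℤ, (p.map (Pool.Agent.N455.HT.ev c)).eval a ≠ 0) →
      (∀ z ∈ Z, Pool.Agent.N455.HT.ev c z ≠ 0) → c ∉ E) : Small E := by
  classical
  have hev : ∀ c : ι → ℤ, Pool.Agent.N455.HT.ev c = eval c := by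
    intro c
    have h1 := hom_eq_ev (eval c : MvPolynomial ι ℤ →+* ℤ)
    rw [h1]
    congr 1
    funext i
    rw [eval_X]
  have hseq : ∀ (S : ℕ → Finset ℕ) (x : ℕ → ι → ℤ), Equi S x →
      Pool.Agent.N666.TM.NullIn S {n | x n ∈ E} := by
    intro S x hS
    have hw := WS.of_equi hS
    have n1 : Pool.Agent.N666.TM.NullIn S (⋃ p ∈ W, {n | ∃ a : ℤ, IsRt p (x n) a}) :=
      NullIn.biUnion' W _ fun p hp => hit_irr hw (hW p hp).1 (hW p hp).2.1 (hW p hp).2.2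
    have n2 : Pool.Agent.N666.TM.NullIn S (⋃ z ∈ Z, {n | Pool.Agent.N455.HT.ev (x n) z = 0}) :=
      NullIn.biUnion' Z _ fun z hz => zero_null hw (hZ z hz)
    refine NullIn.mono' (NullIn.union' n1 n2) ?_
    intro n hn
    by_contra hcon
    rw [Set.mem_union, not_or] at hcon
    refine h (x n) ?_ ?_ hn
    · intro p hp a ha
      exact hcon.1 (Set.mem_biUnion hp ⟨a, ha⟩)
    · intro z hz hz0
      exact hcon.2 (Set.mem_biUnion hz hz0)
  refine ⟨⟨W, ∏ z ∈ Z, z, hW, Finset.prod_ne_zero_iff.2 hZ, ?_⟩, ?_, ?_⟩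
  · intro c hc
    by_contra hcon
    push Not at hcon
    refine h c ?_ ?_ hc
    · intro p hp a
      rw [hev]
      exact hcon.2 p hp a
    · intro z hz
      rw [hev]
      intro h0
      apply hcon.1
      rw [map_prod]
      exact Finset.prod_eq_zero hz h0
  · have h1 := V7H60.GH.box_null (ι := ι) (fun c => c ∉ E) (fun S x hS => by
      have h2 := hseq S x hS
      simpa only [not_not] using h2)
    simp only [not_not] at h1
    exact h1
  · intro S x hS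
    exact hseq S x hS

end thin

/-! ### Twists -/

/-- The tuple `f_j = (a_j h_j + b_j) / (c_j h_j + e_j)`, where `a_j, b_j, c_j, e_j` are the entries
`M (j, 0, 0)`, `M (j, 0, 1)`, `M (j, 1, 0)`, `M (j, 1, 1)`. -/
def twist {k : ℕ} {d : Fin k → ℕ} (M : Fin k × Fin 2 × Fin 2 → ℤ) (h : Idx k d → ℤ) : Idx k d → ℤ :=
  fun e => M (e.1, e.2.1, 0) * h ⟨e.1, (0, e.2.2)⟩ + M (e.1, e.2.1, 1) * h ⟨e.1, (1, e.2.2)⟩

/-- All maps `(P_i) ↦ (f_(τ i) (P_(σ i)))` of `(ℙ^1)^N` built from the tuple are endomorphisms with the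
full Dynamical Mordell-Lang property. -/
def Conclusion {k : ℕ} {d : Fin k → ℕ} (v : Idx k d → ℤ) : Prop :=
  ∀ (N : ℕ) (τ : Fin N → Fin k) (σ : Fin N → Fin N),
    Regular (qmap v τ σ) ∧ DML (qmap v τ σ)

theorem of_good {k : ℕ} {d : Fin k → ℕ} {v : Idx k d → ℤ} (h : V7H60.GH.Good v) : Conclusion v := by
  intro N τ σ
  constructor
  · intro α hα i hi
    apply h.1 (τ i) (fun a => α (σ i, a)) (fun h => hα (σ i) ⟨congrFun h 0, congrFun h 1⟩)
    rw [pt_ev]
    funext a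
    fin_cases a
    · exact hi.1
    · exact hi.2
  · intro α hα S hS
    exact h.2 N τ σ α (fun _ => Subfield.mem_top _) hα S hS

/-- **Dynamical Mordell-Lang for almost all tuples of rational functions.**
(1) Let `f_1, ..., f_k` be rational functions over `ℚ` of arbitrary degrees `≥ 1`, `g` a field
automorphism of `ℂ` and `m ≥ 1`. Suppose that every critical point `x` of every `f_j` is fixed by a
power `g ^ e`, `e ≥ 1`, such that no point of `ℙ^1(ℂ)` fixed by `g ^ e` is mapped to `x` by a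
composition of `m` of the functions `f_j`. Then for all `N`, `τ` and `σ` the map
`(P_i) ↦ (f_(τ i) (P_(σ i)))` is an endomorphism of `(ℙ^1)^N` with the full Dynamical Mordell-Lang
property (all complex points, all closed subvarieties over `ℂ`).
(2) Let `h_1, ..., h_k` be ANY rational functions over `ℚ` of degrees at least two. The conclusion holds
for all `f_j = (a_j h_j + b_j) / (c_j h_j + e_j)` with integers `a_j, b_j, c_j, e_j` outside of a thin set
(which has density zero).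
(3) The conclusion holds for all `f_1, ..., f_k` of given degrees `d_j ≥ 2` outside of a thin set of
integral coefficient vectors (which has density zero). -/
theorem result {k : ℕ} (hk : 0 < k) (d : Fin k → ℕ) :
    ((∀ j, 1 ≤ d j) → ∀ v : Idx k d → ℤ, (∀ j (z : Fin 2 → ℂ), z ≠ 0 → ev v j z ≠ 0) →
      ∀ (g : ℂ ≃+* ℂ) (m : ℕ), 1 ≤ m →
      (∀ j (x : Fin 2 → ℂ), x ≠ 0 → Critical v j x → ∃ e, 1 ≤ e ∧ Fixed g e x ∧
        ∀ y : Fin 2 → ℂ, y ≠ 0 → Fixed g e y → ∀ w : List (Fin k), w.length = m →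
          ¬ Same (comp v w y) x) → Conclusion v) ∧
    ((∀ j, 2 ≤ d j) →
      (∀ h : Idx k d → ℤ, (∀ j (z : Fin 2 → ℂ), z ≠ 0 → ev h j z ≠ 0) →
        Small {M : Fin k × Fin 2 × Fin 2 → ℤ | ¬ Conclusion (twist M h)}) ∧
      Small {v : Idx k d → ℤ | ¬ Conclusion v}) := by
  refine ⟨fun hd v hv g m hm hc N τ σ => main hd v hv g m hm hc N τ σ, fun hd => ⟨fun h hh => ?_, ?_⟩⟩
  · have : Nonempty (Fin k × Fin 2 × Fin 2) := ⟨(⟨0, hk⟩, 0, 0)⟩
    obtain ⟨W, Z, hW, hZ, H⟩ := V7H60.GH.thin_tw h hd (fun i z hz => by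
      have h1 := hh i z hz
      rw [← pt_ev] at h1
      exact h1)
    exact small_of hW hZ fun c h1 h2 h3 => h3 (of_good (H c h1 h2))
  · have : Nonempty (Idx k d) := ⟨⟨⟨0, hk⟩, (0, 0)⟩⟩
    obtain ⟨W, Z, hW, hZ, H⟩ := V7H60.GH.thin d hd
    exact small_of hW hZ fun c h1 h2 h3 => h3 (of_good (H c h1 h2))

end Pool.Agent.Results.MP_295d38_ag.AlmostAllTuplesH60
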