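import Pool.Agent.Results.MP_295d38_ag.AlgebraicPreperiodicMembers
import Pool.Agent.V7H20.ZF.Tau

/-!
# MP_295d38_ag: the dynamical Mordell-Lang conjecture for all but finitely many members, with parameters
of bounded degree over a number field, of families with preperiodic members

**Families.** Let `F_{t,0}, …, F_{t,N}` be forms of one degree in `N + 1` variables, let `x(t)` be a
point with coordinates `x_0(t), …, x_N(t)`, and let `V_t ⊂ ℙ^N` be the closed set defined by forms
`G_{t,k}`, `k ∈ κ` (`κ` finite), all coefficients being complex polynomials in `t`. So `F_t` is a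
one-parameter family of rational self-maps of `ℙ^N`. It can be a family of endomorphisms of `ℙ^N`, a
family of polynomial self-maps of the affine space (`F_{t,0} = X_0^d`), hence of an
affine variety, or be constant. For `t ∈ ℂ` let `R_t` be the set of the `n` such that the
`n`-th iterate of `x(t)` is a point of `V_t`.

**Theorem.** Let `E ⊂ ℂ` be a number field, `δ` a natural number, and let `α_1, …, α_M` be
algebraic numbers, of arbitrary degrees, such that for all conjugates `a` over `E` of the `α_l` the orbit
of `x(a)` under `F_a` is defined (no iterate is zero) and finite (in `ℙ^N`). Let `Z` be a set of points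
of the projective line over the algebraic numbers which is stable under conjugation over `E`. Suppose
that

(`*`) if the points in `Z` and the conjugates over `E` of the `α_l`, `l ∈ I`, are at most `2 δ` points
altogether, and `a_l` is a conjugate of `α_l` for all `l`, then the intersection of the sets `R_{a_l}`,
`l ∉ I`, is finite, or for some `l ∉ I` the matrix of the partial derivatives of the `F_{a_l, i}` is
invertible at the iterates of `x(a_l)` from some index on (that is, `F_{a_l}` is étale at the points
of the cycle).

Then for all but finitely many algebraic numbers `t` of degree at most `δ` over `E`, which are integral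
over a given finitely generated ring with respect to the points in `Z`, the orbit of `x(t)` under
`F_t` is defined, `R_t` is a finite union of arithmetic progressions, and there are a set `I` and
conjugates `a_l` as in (`*`) such that `R_t ⊆ R_{a_l}` for all `l ∉ I`.

For example, let `F` be any endomorphism of `ℙ^N` over `E`, let `x(t)` be a rational curve over `E`, and
let `x(α)` be a preperiodic point of `F`, at whose cycle `F` is étale, for one algebraic number `α` of
degree greater than `2 δ` over `E`. Then for every subvariety `V` over `ℂ` the dynamical Mordell-Lang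
conjecture holds for `F`, `V` and all but finitely many of the points `x(t)`, `t` of degree at most
`δ` over `E`. If `V` is defined over `E` and does not meet the cycle of `x(α)`, no condition on the
ramification is needed. For algebraic integers `t` of degree at most `δ` it is sufficient that `α` has
degree at least `2 δ` (`Z = {∞}`).

The starting file `FamiliesWithPreperiodicMembers` is about the numbers `t` of degree at most `δ` over
`ℚ` and supposes that `x(α)` is preperiodic for `2 δ + 1` (or more) rational numbers `α`;
`AlgebraicPreperiodicMembers` has algebraic `α_l` but only rational `t`, and few instead of finitely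
many exceptions; `MP_b15c9e_ag.NumberFieldPoints` is the case `δ = 1`, `F_a` étale at the cycles.

The proof: if `t` is near to a conjugate `a` of `α_l` for an embedding of `ℂ` into the algebraic
closure of `ℚ_p` for which all data have good reduction, then the orbits of `x(t)` and `x(a)` have the
same reduction. If there is no such embedding for the conjugates of `2 δ + 1` points then the
quotients of the values of the minimal polynomial of `t` over `E` at these points are `S`-units of a
fixed number field, and there are finitely many such `t` by the `S`-unit equation in several variables.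
-/

set_option autoImplicit false

open Polynomial Pool.Agent.H936R2 Pool.Agent.Y199.DM Pool.Agent.V7H20.ZF

namespace Pool.Agent.Results.MP_295d38_ag.BoundedDegreeMembersH20

open Pool.Agent.Results.MP_295d38_ag.AlgebraicPreperiodicMembers (member start returns near)

variable {N : ℕ} {κ : Type}

/-- `t` is algebraic of degree at most `δ` over `E`. -/
def DegreeAtMost (E : IntermediateField ℚ ℂ) (δ : ℕ) (t : ℂ) : Prop :=
  IsAlgebraic E t ∧ (minpoly E t).natDegree ≤ δ

/-- `a` is a conjugate of `α` over `E`. -/
def IsConjugate (E : IntermediateField ℚ ℂ) (α a : ℂ) : Prop :=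
  aeval a (minpoly E α) = 0

/-- The points in `Z` and the conjugates over `E` of the `α_l`, `l ∈ I`, are at most `k` points. -/
def AtMost {M : ℕ} (E : IntermediateField ℚ ℂ) (α : Fin M → ℂ) (Z : Set (Option ℂ))
    (I : Finset (Fin M)) (k : ℕ) : Prop :=
  (Z ∪ ⋃ l ∈ I, ConjugatesOver E (some (α l))).encard ≤ k

/-- **The dynamical Mordell-Lang conjecture for all but finitely many members, with parameters of
bounded degree over a number field, of families with preperiodic members.** -/
theorem result [Finite κ] {d M : ℕ} (F : Fin (N + 1) → MvPolynomial (Fin (N + 1)) ℂ[X])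
    (hF : ∀ i, (F i).IsHomogeneous d) (x : Fin (N + 1) → ℂ[X])
    (G : κ → MvPolynomial (Fin (N + 1)) ℂ[X]) (e : κ → ℕ) (hG : ∀ k, (G k).IsHomogeneous (e k))
    (E : IntermediateField ℚ ℂ) [FiniteDimensional ℚ E] (δ : ℕ)
    (α : Fin M → ℂ) (hα : ∀ l, IsAlgebraic ℚ (α l))
    (hpre : ∀ l a, IsConjugate E (α l) a → Preperiodic (member F a) (start x a))
    (Γ : Finset ℂ) (Z : Set (Option ℂ)) (hZ : ∀ z ∈ Z, ConjugatesOver E z ⊆ Z)
    (hZa : ∀ z ∈ Z, ∀ w ∈ z, IsAlgebraic ℚ w)
    (hR : ∀ I : Finset (Fin M), AtMost E α Z I (2 * δ) →
      ∀ a : Fin M → ℂ, (∀ l, IsConjugate E (α l) (a l)) →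
        {n : ℕ | ∀ l, l ∉ I → n ∈ returns F x G (a l)}.Finite ∨
          ∃ l, l ∉ I ∧ EventuallyEtale (member F (a l)) (start x (a l))) :
    {t : ℂ | DegreeAtMost E δ t ∧ (∀ z ∈ Z, IntegralAt (Γ : Set ℂ) t z) ∧
      ¬ ((∀ n, (pt (member F t))^[n] (start x t) ≠ 0) ∧ IsFiniteUnionOfAP (returns F x G t) ∧
        ∃ (I : Finset (Fin M)) (a : Fin M → ℂ), AtMost E α Z I (2 * δ) ∧
          (∀ l, IsConjugate E (α l) (a l)) ∧
          ∀ l, l ∉ I → returns F x G t ⊆ returns F x G (a l))}.Finite := by
  classical
  have hαi : ∀ l, ∀ w ∈ (some (α l) : Option ℂ), IsIntegral E w := by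
    intro l w hw
    have h1 : α l = w := Option.some_injective _ hw
    rw [← h1]
    exact ((hα l).extendScalars (algebraMap ℚ E).injective).isIntegral
  -- the embeddings
  have hs : ∀ l (a : ℂ), ∃ s : Finset ℂ, IsConjugate E (α l) a →
      ∀ (p : ℕ) [Fact p.Prime] (τ : ℂ →+* PadicAlgCl p), (∀ y ∈ s, ‖τ y‖ ≤ 1) →
      ∀ t : ℂ, ‖τ a - τ t‖ < 1 → (∀ n, (pt (member F t))^[n] (start x t) ≠ 0) ∧
        returns F x G t ⊆ returns F x G a ∧
        (EventuallyEtale (member F a) (start x a) → IsFiniteUnionOfAP (returns F x G t)) := by
    intro l a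
    by_cases ha : IsConjugate E (α l) a
    · obtain ⟨s, hs⟩ := near F hF x G e hG a (hpre l a ha)
      exact ⟨s, fun _ => hs⟩
    · exact ⟨∅, fun h => absurd h ha⟩
  choose s hs using hs
  have hC : ∀ l, {a : ℂ | IsConjugate E (α l) a}.Finite := by
    intro l
    refine (Polynomial.rootSet_finite (minpoly E (α l)) ℂ).subset fun a ha => ?_
    exact Polynomial.mem_rootSet.2 ⟨minpoly.ne_zero (hαi l (α l) rfl), ha⟩
  let W : Finset ℂ := Finset.univ.biUnion fun l => (hC l).toFinset.biUnion fun a => s l a
  have hW : ∀ l a, IsConjugate E (α l) a → s l a ⊆ W := by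
    intro l a ha y hy
    simp only [W, Finset.mem_biUnion, Finset.mem_univ, true_and, Set.Finite.mem_toFinset]
    exact ⟨l, a, ha, hy⟩
  have hfin : (⋃ I ∈ {I : Finset (Fin M) | ¬ AtMost E α Z I (2 * δ)},
      {t : ℂ | IsAlgebraic E t ∧ (minpoly E t).natDegree ≤ δ ∧
        (∀ z ∈ Z, IntegralAt (Γ : Set ℂ) t z) ∧
        ∀ l ∈ I, ∀ b ∈ ConjugatesOver E (some (α l)), FarT (W : Set ℂ) t b}).Finite :=
    (Set.toFinite _).biUnion fun I hI => finite_excT_deg E W Γ δ Z hZ hZa
      (fun l => some (α l)) (fun l w hw => by
        have h1 : α l = w := Option.some_injective _ hw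
        rw [← h1]
        exact hα l) I hI
  refine hfin.subset ?_
  rintro t ⟨⟨htE, htd⟩, htZ, ht⟩
  by_contra hcon
  apply ht
  let I : Finset (Fin M) := Finset.univ.filter fun l =>
    ∀ b ∈ ConjugatesOver E (some (α l)), FarT (W : Set ℂ) t b
  have hI : ∀ l, l ∈ I ↔ ∀ b ∈ ConjugatesOver E (some (α l)), FarT (W : Set ℂ) t b :=
    fun l => by simp [I]
  have hcard : AtMost E α Z I (2 * δ) := by
    by_contra h
    exact hcon (Set.mem_iUnion₂.2 ⟨I, h, htE, htd, htZ, fun l hl => (hI l).1 hl⟩)
  have hV : ∀ l, ∃ a : ℂ, IsConjugate E (α l) a ∧ (l ∉ I → Near W a t) := by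
    intro l
    by_cases hl : l ∈ I
    · exact ⟨α l, minpoly.aeval E (α l), fun h => absurd hl h⟩
    · have h4 := hl
      rw [hI] at h4
      push Not at h4
      obtain ⟨b, ⟨a, rfl, ha⟩, h5⟩ := h4
      rw [farT_some, not_not] at h5
      exact ⟨a, ha, fun _ => h5⟩
  choose a ha hV using hV
  have key : ∀ l, l ∉ I → (∀ n, (pt (member F t))^[n] (start x t) ≠ 0) ∧
        returns F x G t ⊆ returns F x G (a l) ∧
        (EventuallyEtale (member F (a l)) (start x (a l)) →
          IsFiniteUnionOfAP (returns F x G t)) := by
    intro l hl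
    obtain ⟨p, hp, τ, hτ, hlt⟩ := hV l hl
    refine hs l (a l) (ha l) p τ (fun y hy => hτ y (hW l (a l) (ha l) hy)) t ?_
    rw [← map_sub, ← neg_sub, map_neg, norm_neg]
    exact hlt
  have hne : ∃ l, l ∉ I := by
    rcases hR I hcard a ha with h | ⟨l, hl, -⟩
    · by_contra hcon2
      push Not at hcon2
      have : {n : ℕ | ∀ l, l ∉ I → n ∈ returns F x G (a l)} = Set.univ := by
        ext n
        simp only [Set.mem_ofPred_eq, Set.mem_univ, iff_true]
        exact fun l hl => absurd (hcon2 l) hl
      rw [this] at h
      exact Set.infinite_univ h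
    · exact ⟨l, hl⟩
  obtain ⟨l0, hl0⟩ := hne
  refine ⟨(key l0 hl0).1, ?_, I, a, hcard, ha, fun l hl => (key l hl).2.1⟩
  rcases hR I hcard a ha with h | ⟨l, hl, het⟩
  · exact isFiniteUnionOfAP_of_finite (h.subset fun n hn l hl => (key l hl).2.1 hn)
  · exact (key l hl).2.2 het

end Pool.Agent.Results.MP_295d38_ag.BoundedDegreeMembersH20
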