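import Pool.Agent.V7H43.GD.Dyn

/-!
MP_295d38_ag, Q1: the dynamical Mordell-Lang conjecture for the self-maps of a variety `X` that are
given by forms `F_a` (and by fixed polynomials), for all systems of forms outside a subset of
codimension greater than `δ` of the space of their coefficients.

Let `K` be an algebraically closed field of characteristic `0`, for instance `K = ℂ`, and let `k` be
a field contained in `K`, with algebraic closure `k'` in `K`, for instance `k = ℚ`.

* Forms. For `a` in a finite set `A`, let `F_a` be a form of degree `d_a` in `n + 1` variables over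
  `K`. Let `N` be the number of the coefficients of all these forms together. The assumption is that
  these coefficients generate a field of transcendence degree at least `N - δ` over `k`
  (`LargeTrdeg`). So they are a point of the affine space of dimension `N` over `K` that is not in
  any closed subset over `k'` of codimension greater than `δ`. For `K = ℂ` and countable `k`, only
  the points in countably many closed subsets of codimension greater than `δ` are excluded.
  (`LargeTrdeg` contains the assumption that `K` has a transcendence degree at least `N` over `k`.)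
* The self-map. Let `X` be a subset of `ℙ^n (K)` such that `trdeg k' (x) ≤ m` for all points `x` of
  `X` (`TrdegLE`), for instance a quasi-projective variety over `k'` of dimension at most `m`. Let
  `Φ` be a map from `X` to `X` of the form `x ↦ (Ψ_0 (x, F (x)) : … : Ψ_n (x, F (x)))`, where
  `F (x)` is the tuple of the values `F_a (x)`, and the `Ψ_i` are polynomials over `k'` in the
  variables `x_s`, `y_a` (`GivenBy`).
* The subvariety. Let `V` be a closed subset of `ℙ^n` over `k'`, the zero set of the set `C` of
  forms. The assumption is that for all `x` in `X` the set of the `y` with `Ψ (x, y) ∈ V` has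
  codimension at least `c` in the affine space with the coordinates `y_a`. Here the codimension is
  expressed with transcendence degrees: if `Ψ (x, y)` is a point of `V`, then
  `trdeg k' (x, y) / k' (x) ≤ |A| - c` (`FibresCodim`).

If `∑_{a ∈ B} (d_a + 1) ≥ 2 m + 2 + δ` for all subsets `B` of `A` with `c` elements, then

(1) for every finite subset `T` of `K`, only finitely many points `p` of `X` over the field `k' (T)`
    satisfy `Φ (p) ∈ V`;
(2) for all `α` in `X`, the return set `{r : Φ^r (α) ∈ V}` is a finite union of arithmetic
    progressions, and it is finite unless `α` is preperiodic.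

In (1), `T` may contain the coefficients of the `F_a` and the coordinates of finitely many points
`α`. So (1) also shows that the orbit of `α` under the semigroup that is generated by finitely many
self-maps of this kind, each of them with its own `F`, `A`, `δ` and `Ψ`, has only finitely many
points in `V`.

The field `k` is arbitrary. For a closed subset `V` (and polynomials `Ψ_i`) over a field `k₁` of
transcendence degree `q` over `k`, the theorem can be applied with `k₁`, and `δ + q` instead
of `δ`. There is no loss if the coefficients of the `F_a` have a transcendence degree at least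
`N - δ` over `k₁`.

Examples.
* Endomorphisms of `ℙ^n` of degree `d`: `X = ℙ^n`, `A = {0, …, n}`, `Ψ_i = y_i`, `Φ = (F_0 : … : F_n)`.
  Then `m = n`, and `c` is the codimension of `V`: the condition is `codim V · (d + 1) ≥ 2 n + 2 + δ`.
  So if `δ ≤ codim V · (d + 1) - 2 n - 2`, the conjecture holds for `V` and all endomorphisms outside
  codimension `δ`, and all `α`. For instance, it holds for all curves `V` over `k'` in `ℙ^2` and all
  endomorphisms of degree `d` with a coefficient vector of transcendence degree at least
  `N - (d - 5)`, where `N = 3 (d + 1) (d + 2) / 2`.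
* Polynomial self-maps `(f_1, …, f_n)` of `𝔸^n`, `deg f_a ≤ d_a`, and subvarieties `V` of codimension
  `c` of `𝔸^n`: `X = 𝔸^n`, `F_a` is the homogenisation of `f_a`, `Ψ_0 = x_0 ^ e`,
  `Ψ_a = x_0 ^ (e - d_a) y_a` with `e = max d_a`.
* Skew products over an arbitrary dynamical system. Let `X' ⊆ 𝔸^s` be an affine variety over `k'`, let
  `h : X' → X'` be any polynomial self-map over `k'`, and let `Φ` be the self-map
  `(x, y) ↦ (h (x), f (x, y))` of `X = X' × 𝔸^t`, where `f = (f_1, …, f_t)` is given by polynomials of
  degrees at most `d_a` in the coordinates `x`, `y`, with coefficients of transcendence degree at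
  least `N - δ`. The fibres of `V` over the points of `X'` must have codimension at least `c`
  in `𝔸^t`, and `∑_{a ∈ B} (d_a + 1) ≥ 2 dim X' + 2 t + 2 + δ` for all `B` with `c` elements.

For `δ = 0` and endomorphisms of `ℙ^n`, (2) is a theorem of Fakhruddin on generic endomorphisms.
-/

set_option autoImplicit false

namespace Pool.Agent.Results.MP_295d38_ag.OutsideCodimensionH43

open MvPolynomial Pool.Agent.V7H43.GD

theorem result {k K : Type} [Field k] [Field K] [IsAlgClosed K] [CharZero K] [Algebra k K]
    {n m c δ : ℕ} {A : Type} [Fintype A] (d : A → ℕ)
    -- forms whose coefficients have a transcendence degree at least `N - δ`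
    (F : A → MvPolynomial (Fin (n + 1)) K) (hF : LargeTrdeg d k δ F)
    -- the variety and its self-map
    (X : Set (Projectivization K (Fin (n + 1) → K))) (hX : TrdegLE (algebraicClosure k K) X m)
    (Φ : Projectivization K (Fin (n + 1) → K) → Projectivization K (Fin (n + 1) → K))
    (Ψ : Fin (n + 1) → MvPolynomial (Fin (n + 1) ⊕ A) (algebraicClosure k K))
    (hΦ : GivenBy X Φ Ψ F)
    -- the closed subset
    (C : Set (MvPolynomial (Fin (n + 1)) (algebraicClosure k K)))
    (hC : ∀ G ∈ C, ∃ e, G.IsHomogeneous e) (hc : FibresCodim X Ψ C c)
    (hd : ∀ B : Finset A, B.card = c → 2 * m + 2 + δ ≤ ∑ a ∈ B, (d a + 1)) :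
    -- (1) finiteness of the points that are mapped to the closed subset
    (∀ T : Finset K, {p ∈ X | Over (IntermediateField.adjoin (algebraicClosure k K) (T : Set K)) p ∧
      Φ p ∈ zeros C}.Finite) ∧
    -- (2) return sets
    ∀ α ∈ X, (∃ S : Finset (ℕ × ℕ), {r : ℕ | Φ^[r] α ∈ zeros C} =
        {r : ℕ | ∃ t ∈ S, ∃ l, r = t.1 + t.2 * l}) ∧
      ({r : ℕ | Φ^[r] α ∈ zeros C}.Infinite → ∃ i j, i < j ∧ Φ^[i] α = Φ^[j] α) :=
  ⟨fun T => finite_pre hF hX hΦ hC hc hd T, fun _ hα =>
    ⟨(return_set hF hX hΦ hC hc hd hα).2, (return_set hF hX hΦ hC hc hd hα).1⟩⟩

end Pool.Agent.Results.MP_295d38_ag.OutsideCodimensionH43
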